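import Pool.Agent.Results.MP_90787a_nt.FewExceptionalUnicritical
import Pool.Agent.X134.Win.NearZ

/-!
# Uniform boundedness for all unicritical polynomials whose invariant is near a generic complex number

The class of `a z ^ d + b` up to conjugation is given by the number `t = a b ^ (d - 1)`. Let `d ≥ 2` and `D` be given.

1. For every `ε > 0` there is `N`, depending only on `d`, `D` and `ε`, such that for every `η > 0` and all complex numbers
`x` outside a set of Hausdorff dimension at most `ε / η`, ALL polynomials `a z ^ d + b` such that `t` has degree at most `D`,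
a large height `H` and `|t - x| ≤ H ^ (-η)` have at most `N` preperiodic points `z` such that `ℚ(a, b, z)` has degree at
most `D`, and at most `N` preperiodic points in each number field of degree at most `D` containing `a` and `b`.

2. For all complex `x` outside a set of dimension zero this holds for every `η > 0`, with some `N` depending on `x` and `η`.
-/

set_option autoImplicit false

open Filter Topology Module
open scoped ENNReal

namespace Pool.Agent.Results.MP_90787a_nt.GenericInvariant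

/-- `t` is a root of a nonzero integral polynomial of degree at most `D` with coefficients at most `X` -/
def HeightLE (D : ℕ) (X : ℝ) (t : ℂ) : Prop :=
  ∃ P : Polynomial ℤ, P ≠ 0 ∧ P.natDegree ≤ D ∧ (∀ i, |((P.coeff i : ℤ) : ℝ)| ≤ X) ∧
    Polynomial.aeval t P = 0

/-- the preperiodic points of `a w ^ d + b` in the field `F` -/
def preperiodic {F : Type} [Field F] (d : ℕ) (a b : F) : Set F :=
  {z | (Set.range fun k : ℕ => (fun w : F => a * w ^ d + b)^[k] z).Finite}

/-- the complex `z` such that `ℚ(a, b, z)` has degree at most `D` -/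
def boundedDegree (D : ℕ) (a b : ℂ) : Set ℂ :=
  {z | FiniteDimensional ℚ (IntermediateField.adjoin ℚ {a, b, z}) ∧
    finrank ℚ (IntermediateField.adjoin ℚ {a, b, z}) ≤ D}

/-- the polynomials `a z ^ d + b` with `a b ^ (d - 1) = t` have at most `N` preperiodic points of degree `≤ D` -/
def Bounded (d D N : ℕ) (t : ℂ) : Prop :=
  (∀ a b : ℂ, a * b ^ (d - 1) = t →
    (preperiodic d a b ∩ boundedDegree D a b).Finite ∧
    (preperiodic d a b ∩ boundedDegree D a b).ncard ≤ N) ∧
  (∀ (K : Type) [Field K] [NumberField K], finrank ℚ K ≤ D → ∀ (σ : K →+* ℂ) (a b : K),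
    σ (a * b ^ (d - 1)) = t → (preperiodic d a b).Finite ∧ (preperiodic d a b).ncard ≤ N)

open Pool.Agent.X134.Win (two one_le_two nearX exists_two expLe_two)

/-- **Theorem.** Let `d ≥ 2` and `D` be given.

1. For every `ε > 0` there is `N` such that for every `η > 0` there is a set `E` of complex numbers of Hausdorff dimension
at most `ε / η` such that for all `x ∉ E` there is `H₀` such that for all `H ≥ H₀` all roots `t` of nonzero integral
polynomials of degree at most `D` with coefficients at most `H` with `|t - x| ≤ H ^ (-η)` are bounded with the constant `N`.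

2. There is a set `E` of complex numbers of Hausdorff dimension zero such that for all `x ∉ E` and `η > 0` there are `N` and
`H₀` with this property. -/
theorem result (d : ℕ) (hd : 2 ≤ d) (D : ℕ) :
    (∀ ε : ℝ, 0 < ε → ∃ N : ℕ, ∀ η : ℝ, 0 < η → ∃ E : Set ℂ, dimH E ≤ ENNReal.ofReal (ε / η) ∧
      ∀ x : ℂ, x ∉ E → ∃ H₀ : ℝ, ∀ H : ℝ, H₀ ≤ H → ∀ t : ℂ, HeightLE D H t → ‖t - x‖ ≤ H ^ (-η) → Bounded d D N t) ∧
    (∃ E : Set ℂ, dimH E = 0 ∧ ∀ x : ℂ, x ∉ E → ∀ η : ℝ, 0 < η → ∃ (N : ℕ) (H₀ : ℝ), ∀ H : ℝ, H₀ ≤ H →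
      ∀ t : ℂ, HeightLE D H t → ‖t - x‖ ≤ H ^ (-η) → Bounded d D N t) := by
  have part1 : ∀ ε : ℝ, 0 < ε → ∃ N : ℕ, ∀ η : ℝ, 0 < η → ∃ E : Set ℂ, dimH E ≤ ENNReal.ofReal (ε / η) ∧
      ∀ x : ℂ, x ∉ E → ∃ H₀ : ℝ, ∀ H : ℝ, H₀ ≤ H → ∀ t : ℂ, HeightLE D H t → ‖t - x‖ ≤ H ^ (-η) →
        Bounded d D N t := by
    intro ε hε
    obtain ⟨N, C, Z, hZ, h1, h2⟩ := FewExceptionalUnicritical.result d hd D ε hε
    refine ⟨N, fun η hη => ?_⟩
    obtain ⟨E, hE1, hE2⟩ := nearX (X := ℂ) (T := ℂ) (fun n => {t | t ∈ Z ∧ HeightLE D (two n) t}) (fun t => t)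
      (s := ε) (τ := 0) (η := η) (B := 2 ^ η) one_le_two le_rfl expLe_two hε.le hη (by positivity)
      (fun δ hδ => ⟨|C|, fun n => ⟨(hZ (two n) (one_le_two n)).1, (hZ (two n) (one_le_two n)).2.trans (by
        have h0 : (0 : ℝ) ≤ two n := zero_le_one.trans (one_le_two n)
        calc C * two n ^ ε ≤ |C| * two n ^ ε :=
              mul_le_mul_of_nonneg_right (le_abs_self _) (Real.rpow_nonneg h0 _)
          _ ≤ |C| * two n ^ (ε + δ) :=
              mul_le_mul_of_nonneg_left (Real.rpow_le_rpow_of_exponent_le (one_le_two n) (by linarith)) (abs_nonneg _))⟩⟩)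
    rw [add_zero] at hE1
    refine ⟨E, hE1, fun x hx => ?_⟩
    obtain ⟨n₀, hn₀⟩ := hE2 x hx
    refine ⟨max 1 (two n₀), fun H hH t ht htx => ?_⟩
    have hH1 : 1 ≤ H := le_trans (le_max_left _ _) hH
    have hHp : 0 < H := by linarith
    obtain ⟨n, hn1, hn2⟩ := exists_two H hH1
    have hnn : n₀ ≤ n := by
      by_contra hcon
      rw [not_le] at hcon
      have h5 : two n < two n₀ := pow_lt_pow_right₀ (by norm_num) hcon
      have h6 : two n₀ ≤ H := le_trans (le_max_right _ _) hH
      linarith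
    have hnp : 0 < two n := lt_of_lt_of_le one_pos (one_le_two n)
    have hnot : t ∉ Z := by
      intro hmem
      obtain ⟨P, hP0, hP1, hP2, hP3⟩ := ht
      have h3 := hn₀ n hnn t ⟨hmem, P, hP0, hP1, fun i => (hP2 i).trans hn1, hP3⟩
      rw [dist_eq_norm] at h3
      have h4 : H ^ (-η) ≤ 2 ^ η * two n ^ (-η) := by
        calc H ^ (-η) ≤ (two n / 2) ^ (-η) := by
              rw [Real.rpow_neg hHp.le, Real.rpow_neg (by positivity)]
              refine inv_anti₀ (by positivity) ?_
              exact Real.rpow_le_rpow (by positivity) (by linarith) hη.le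
          _ = 2 ^ η * (two n) ^ (-η) := by
              rw [Real.div_rpow hnp.le (by norm_num), Real.rpow_neg (by norm_num : (0 : ℝ) ≤ 2), div_inv_eq_mul,
                mul_comm]
      linarith
    refine ⟨fun a b hab => h1 a b (by rw [hab]; exact hnot), fun K _ _ hK σ a b hab => ?_⟩
    exact h2 K hK σ a b (by rw [hab]; exact hnot)
  refine ⟨part1, ?_⟩
  have he : ∀ m : ℕ, (0 : ℝ) < 1 / ((m : ℝ) + 1) := fun m => by positivity
  choose N E hE1 hE2 using fun m : ℕ => part1 (1 / ((m : ℝ) + 1)) (he m)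
  choose F hF using fun (j m : ℕ) => (⟨E m (1 / ((j : ℝ) + 1)) (he j), rfl⟩ :
    ∃ F : Set ℂ, F = E m (1 / ((j : ℝ) + 1)) (he j))
  refine ⟨⋃ j : ℕ, ⋂ m : ℕ, F j m, ?_, fun x hx η hη => ?_⟩
  · refine le_antisymm ?_ zero_le
    rw [dimH_iUnion]
    refine iSup_le fun j => ?_
    have hlim : Tendsto (fun m : ℕ => ENNReal.ofReal ((1 / ((m : ℝ) + 1)) / (1 / ((j : ℝ) + 1)))) atTop (𝓝 0) := by
      rw [← ENNReal.ofReal_zero]
      refine ENNReal.tendsto_ofReal ?_
      have h3 := (tendsto_one_div_add_atTop_nhds_zero_nat (𝕜 := ℝ)).div_const (1 / ((j : ℝ) + 1))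
      simpa using h3
    refine ge_of_tendsto' hlim fun m => (dimH_mono (Set.iInter_subset _ m)).trans ?_
    rw [hF]
    exact hE1 m _ _
  · obtain ⟨j, hj⟩ := exists_nat_gt (1 / η)
    have h1 : x ∉ ⋂ m : ℕ, F j m := fun h => hx (Set.mem_iUnion.2 ⟨j, h⟩)
    rw [Set.mem_iInter] at h1
    push Not at h1
    obtain ⟨m, hm⟩ := h1
    rw [hF] at hm
    obtain ⟨H₀, hH₀⟩ := hE2 m _ _ x hm
    have hηj : 1 / ((j : ℝ) + 1) ≤ η := by
      rw [div_le_iff₀ (by positivity)]
      rw [div_lt_iff₀ hη] at hj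
      nlinarith
    refine ⟨N m, max 1 H₀, fun H hH t ht htx => hH₀ H ((le_max_right _ _).trans hH) t ht (htx.trans ?_)⟩
    exact Real.rpow_le_rpow_of_exponent_le ((le_max_left _ _).trans hH) (by linarith)

end Pool.Agent.Results.MP_90787a_nt.GenericInvariant
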