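import Pool.Agent.X12.Nq7

/-!
# All polynomials of degree `d` over a number field: long orbits are rare
-/

set_option autoImplicit false

namespace Pool.Agent.Results.MP_90787a_nt.LongOrbitsNumberFields

open NumberField Polynomial Function Module

variable {K : Type*} [Field K] [NumberField K]

/-- The elements of `K` with a finite forward orbit under `f`. -/
def Preper (f : K[X]) : Set K :=
  {z | (Set.range fun k : ℕ => (fun x => f.eval x)^[k] z).Finite}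

/-- The polynomials of degree `d` over `K` with leading coefficient `a` and coefficient `0` in
degree `d - 1` for which some nonzero integer `D` of `K`, of house at most `H`, makes `D ^ (d - i)`
times the coefficient of degree `i` an integer of `K` of house at most `H ^ (d - i)`, for all
`i < d`. The house is the largest absolute value of a conjugate. -/
def Fam (d : ℕ) (a : 𝓞 K) (H : ℝ) : Set K[X] :=
  {f | f.natDegree = d ∧ f.coeff d = (a : K) ∧ f.coeff (d - 1) = 0 ∧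
    ∃ D : 𝓞 K, D ≠ 0 ∧ house (D : K) ≤ H ∧ ∀ i < d, ∃ B : 𝓞 K,
      (B : K) = (D : K) ^ (d - i) * f.coeff i ∧ house (B : K) ≤ H ^ (d - i)}

theorem result (K : Type) [Field K] [NumberField K] (d : ℕ) (hd : 2 ≤ d) :
    (∀ (m : ℕ) (ε : ℝ), 0 < ε → ∃ C : ℝ, ∀ (H : ℝ) (a : 𝓞 K), 1 ≤ H → a ≠ 0 →
      house (a : K) ≤ H ^ m →
      (({f : K[X] | f ∈ Fam d a H ∧ ∃ z : K, d < minimalPeriod (fun x => f.eval x) z}).ncard : ℝ) ≤
        C * H ^ ((finrank ℚ K : ℝ) + ε)) ∧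
    (∀ (m k : ℕ) (ε : ℝ), 1 ≤ k → 0 < ε → ∃ C : ℝ, ∀ (H : ℝ) (a : 𝓞 K), 1 ≤ H → a ≠ 0 →
      house (a : K) ≤ H ^ m →
      (({f : K[X] | f ∈ Fam d a H ∧ ∃ z ∈ Preper f,
        k * d + 1 < (Set.range fun i : ℕ => (fun x => f.eval x)^[i] z).ncard}).ncard : ℝ) ≤
        C * H ^ ((finrank ℚ K : ℝ) * (1 + ((m : ℝ) + 1) / (k : ℝ)) + ε) ∧
      (({f : K[X] | f ∈ Fam d a H ∧
        (((k * d + 1) * d ^ (k * d + 1) : ℕ) : ℕ∞) < (Preper f).encard}).ncard : ℝ) ≤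
        C * H ^ ((finrank ℚ K : ℝ) * (1 + ((m : ℝ) + 1) / (k : ℝ)) + ε)) ∧
    (∃ c C : ℝ, 0 < c ∧ ∀ (H : ℝ) (a : 𝓞 K), 1 ≤ H → a ≠ 0 → (Fam d a H).Finite ∧
      c * H ^ (finrank ℚ K * (d * (d + 1) / 2 - 1) + 1) ≤ ((Fam d a H).ncard : ℝ) ∧
      ((Fam d a H).ncard : ℝ) ≤ C * H ^ (finrank ℚ K * (d * (d + 1) / 2))) ∧
    (∀ g : K[X], g.natDegree = d → ∃ (a : 𝓞 K) (H : ℝ) (f : K[X]) (l μ : K), a ≠ 0 ∧ 1 ≤ H ∧
      f ∈ Fam d a H ∧ l ≠ 0 ∧ g.comp (C l * X + C μ) = C l * f + C μ) ∧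
    (∀ ε : ℝ, 0 < ε → ∃ C : ℝ, ∀ H : ℝ, 1 ≤ H →
      (({f : K[X] | f ∈ Fam 2 1 H ∧ ∃ (L : Type) (_ : Field L) (_ : NumberField L)
        (_ : Algebra K L), finrank K L = 2 ∧
        ∃ z : L, 2 < minimalPeriod (fun x => (f.map (algebraMap K L)).eval x) z}).ncard : ℝ) ≤
        C * H ^ ((finrank ℚ K : ℝ) + ε)) ∧
    (∀ (k : ℕ) (ε : ℝ), 1 ≤ k → 0 < ε → ∃ C : ℝ, ∀ H : ℝ, 1 ≤ H →
      (({f : K[X] | f ∈ Fam 2 1 H ∧ ∃ (L : Type) (_ : Field L) (_ : NumberField L)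
        (_ : Algebra K L), finrank K L = 2 ∧
        (((6 * k + 1) * 2 ^ (6 * k + 1) : ℕ) : ℕ∞) <
          (Preper (f.map (algebraMap K L))).encard}).ncard : ℝ) ≤
        C * H ^ ((finrank ℚ K : ℝ) * (1 + 2 / (k : ℝ)) + ε)) := by
  refine ⟨fun m ε hε => ?_, fun m k ε hk hε => ?_, ?_, fun g hg => ?_, fun ε hε => ?_,
    fun k ε hk hε => ?_⟩
  · obtain ⟨C, -, h⟩ := Pool.Agent.X12.Nf.cyc_count K hd m ε hε
    exact ⟨C, h⟩
  · obtain ⟨C, -, h⟩ := Pool.Agent.X12.Nf.long_count K hd m hk ε hε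
    refine ⟨C, fun H a hH ha haH => ⟨?_, ?_⟩⟩
    · refine h H a hH ha haH _ ?_
      rintro f ⟨hf, z, hz, hzn⟩
      exact ⟨hf, z, hz, Pool.Agent.X12.Nf.inj_of_orbit hzn⟩
    · refine h H a hH ha haH _ ?_
      rintro f ⟨hf, hfn⟩
      exact ⟨hf, Pool.Agent.X12.Nf.exists_long hd hf.1 hfn⟩
  · obtain ⟨c, hc, h1⟩ := Pool.Agent.X12.Nf.fam_lower K hd
    obtain ⟨C, -, h2⟩ := Pool.Agent.X12.Nf.fam_upper K hd
    exact ⟨c, C, hc, fun H a hH ha => ⟨(h2 H a hH).1, h1 H a hH ha, (h2 H a hH).2⟩⟩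
  · exact Pool.Agent.X12.Nf.exists_conj K hd hg
  · obtain ⟨C, -, h⟩ := Pool.Agent.X12.Nq.cyc_countR K ε hε
    exact ⟨C, fun H hH => h H hH _ fun f hf => hf⟩
  · obtain ⟨C, -, h⟩ := Pool.Agent.X12.Nq.long_countR K hk ε hε
    refine ⟨C, fun H hH => h H hH _ ?_⟩
    rintro f ⟨hf, L, i1, i2, i3, hL, hfn⟩
    exact ⟨hf, L, i1, i2, i3, hL, Pool.Agent.X12.Nf.exists_long le_rfl
      (by rw [Polynomial.natDegree_map]; exact hf.1) hfn⟩

end Pool.Agent.Results.MP_90787a_nt.LongOrbitsNumberFields
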