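import Pool.Agent.X39.Win.Basic
import Pool.Agent.Results.MP_90787a_nt.FewExceptionalUnicritical

/-!
# Uniform boundedness for unicritical polynomials in windows of heights

Let `v ≥ 1` be a sequence with exponent of convergence at most `τ` (for `v_n = n ^ κ` this is `1 / κ`,
for `v_n = b ^ n` it is `0`) and `θ < 1`. For `α > 0` outside sets of small Hausdorff dimension and all
large `n`, ALL unicritical polynomials `a z ^ d + b` of height in the window
`[α v_n - v_n ^ θ, α v_n + v_n ^ θ]` over ALL number fields of degree at most `D` have at most `N`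
preperiodic points in these fields.
-/

set_option autoImplicit false

open Module MeasureTheory

namespace Pool.Agent.Results.MP_90787a_nt.PreperiodicPointsInWindows

/-- the exponent of convergence of the sequence `v` is at most `τ` -/
def ExpLe (v : ℕ → ℝ) (τ : ℝ) : Prop := ∀ t : ℝ, τ < t → Summable (fun n : ℕ => (v n) ^ (-t))

/-- `t` is a root of a nonzero integral polynomial of degree at most `D` with coefficients at most `X`
in absolute value. -/
def HeightLE (D : ℕ) (X : ℝ) (t : ℂ) : Prop :=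
  ∃ P : Polynomial ℤ, P ≠ 0 ∧ P.natDegree ≤ D ∧ (∀ i, |((P.coeff i : ℤ) : ℝ)| ≤ X) ∧
    Polynomial.aeval t P = 0

/-- the height of `t`: the least integer `H` such that `t` is a root of a nonzero integral polynomial
of degree at most `D` with coefficients at most `H` in absolute value -/
noncomputable def height (D : ℕ) (t : ℂ) : ℕ := sInf {H : ℕ | HeightLE D (H : ℝ) t}

/-- The elements `z` of the field `F` with a finite forward orbit under `w ↦ a w ^ d + b`. -/
def preperiodic {F : Type} [Field F] (d : ℕ) (a b : F) : Set F :=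
  {z | (Set.range fun k : ℕ => (fun w : F => a * w ^ d + b)^[k] z).Finite}

/-- The complex numbers `z` such that `a`, `b`, `z` generate a number field of degree at most `D`. -/
def boundedDegree (D : ℕ) (a b : ℂ) : Set ℂ :=
  {z | FiniteDimensional ℚ (IntermediateField.adjoin ℚ {a, b, z}) ∧
    finrank ℚ (IntermediateField.adjoin ℚ {a, b, z}) ≤ D}

/-- If `a b ^ (d - 1)` is in `T`, then `a z ^ d + b` has at most `N` preperiodic points `z` such that
`ℚ(a, b, z)` has degree at most `D`, and at most `N` preperiodic points in each number field of degree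
at most `D` which contains `a` and `b`. -/
def Bounded (d D N : ℕ) (T : Set ℂ) : Prop :=
  (∀ a b : ℂ, a * b ^ (d - 1) ∈ T →
    (preperiodic d a b ∩ boundedDegree D a b).Finite ∧
    (preperiodic d a b ∩ boundedDegree D a b).ncard ≤ N) ∧
  (∀ (K : Type) [Field K] [NumberField K], finrank ℚ K ≤ D → ∀ (σ : K →+* ℂ) (a b : K),
    σ (a * b ^ (d - 1)) ∈ T →
    (preperiodic d a b).Finite ∧ (preperiodic d a b).ncard ≤ N)

/-- the elements of number fields of degree at most `D` have a height -/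
lemma hasHeight {D : ℕ} (K : Type) [Field K] [NumberField K] (hK : finrank ℚ K ≤ D)
    (σ : K →+* ℂ) (x : K) : ∃ H : ℕ, HeightLE D (H : ℝ) (σ x) := by
  have hint : IsIntegral ℚ x := Algebra.IsIntegral.isIntegral x
  set p := minpoly ℚ x with hp
  have hp0 : p ≠ 0 := minpoly.ne_zero hint
  obtain ⟨b, hbm, hb⟩ := IsLocalization.integerNormalization_spec (nonZeroDivisors ℤ) p
  set P := IsLocalization.integerNormalization (nonZeroDivisors ℤ) p with hP
  have hb0 : ((b : ℤ) : ℚ) ≠ 0 := by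
    have := nonZeroDivisors.ne_zero hbm
    exact_mod_cast this
  have hco : ∀ i, ((P.coeff i : ℤ) : ℚ) = ((b : ℤ) : ℚ) * p.coeff i := by
    intro i
    have h1 := congrArg (fun q => Polynomial.coeff q i) hb
    simpa using h1
  refine ⟨∑ i ∈ P.support, (P.coeff i).natAbs, P, ?_, ?_, ?_, ?_⟩
  · intro h0
    apply hp0
    ext i
    have h1 := hco i
    rw [h0, Polynomial.coeff_zero] at h1
    have h2 : ((b : ℤ) : ℚ) * p.coeff i = 0 := by rw [← h1]; norm_num
    rcases mul_eq_zero.1 h2 with h | h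
    · exact absurd h hb0
    · simpa using h
  · refine le_trans ?_ ((minpoly.natDegree_le x).trans hK)
    rw [Polynomial.natDegree_le_iff_coeff_eq_zero]
    intro i hi
    have h1 := hco i
    rw [Polynomial.coeff_eq_zero_of_natDegree_lt hi, mul_zero] at h1
    exact_mod_cast h1
  · intro i
    by_cases hi : i ∈ P.support
    · have h1 : (P.coeff i).natAbs ≤ ∑ i ∈ P.support, (P.coeff i).natAbs :=
        Finset.single_le_sum (f := fun i => (P.coeff i).natAbs) (fun _ _ => Nat.zero_le _) hi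
      have h2 : |((P.coeff i : ℤ) : ℝ)| = (((P.coeff i).natAbs : ℕ) : ℝ) := by
        rw [Nat.cast_natAbs, Int.cast_abs]
      rw [h2]
      exact_mod_cast h1
    · have h1 : P.coeff i = 0 := by simpa using hi
      rw [h1, Int.cast_zero, abs_zero]
      exact Nat.cast_nonneg _
  · have h1 : Polynomial.map (algebraMap ℤ ℚ) P = Polynomial.C ((b : ℤ) : ℚ) * p := by
      ext i
      rw [Polynomial.coeff_map, Polynomial.coeff_C_mul]
      simpa using hco i
    have h2 : Polynomial.aeval x P = 0 := by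
      have h3 : Polynomial.aeval x (Polynomial.map (algebraMap ℤ ℚ) P) = Polynomial.aeval x P :=
        Polynomial.aeval_map_algebraMap ℚ x P
      rw [← h3, h1, map_mul, minpoly.aeval, mul_zero]
    have h4 := congrArg σ h2
    rw [map_zero, Polynomial.aeval_def, Polynomial.hom_eval₂] at h4
    rw [Polynomial.aeval_def]
    rw [show algebraMap ℤ ℂ = σ.comp (algebraMap ℤ K) from RingHom.ext_int _ _]
    exact h4

lemma height_spec {D : ℕ} {t : ℂ} (h : ∃ H : ℕ, HeightLE D (H : ℝ) t) :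
    HeightLE D (height D t : ℝ) t := Nat.sInf_mem h

/-- the two forms of the bound -/
lemma bounded_of {d D N : ℕ} {E : Set ℂ}
    (h1 : ∀ a b : ℂ, a * b ^ (d - 1) ∉ E →
        (preperiodic d a b ∩ boundedDegree D a b).Finite ∧
        (preperiodic d a b ∩ boundedDegree D a b).ncard ≤ N)
    (h2 : ∀ (K : Type) [Field K] [NumberField K], finrank ℚ K ≤ D → ∀ (σ : K →+* ℂ) (a b : K),
        σ (a * b ^ (d - 1)) ∉ E →
        (preperiodic d a b).Finite ∧ (preperiodic d a b).ncard ≤ N) {T : Set ℂ}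
    (hT : ∀ t ∈ T, (∃ H : ℕ, HeightLE D (H : ℝ) t) → t ∉ E) : Bounded d D N T := by
  refine ⟨fun a b hab => ?_, fun K _ _ hK σ a b hab => ?_⟩
  · rcases Set.eq_empty_or_nonempty (preperiodic d a b ∩ boundedDegree D a b) with h0 | ⟨z, -, h3, h4⟩
    · rw [h0]
      exact ⟨Set.finite_empty, by simp⟩
    · refine h1 a b (hT _ hab ?_)
      have : NumberField (IntermediateField.adjoin ℚ {a, b, z}) := { to_finiteDimensional := h3 }
      have ha : a ∈ IntermediateField.adjoin ℚ {a, b, z} :=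
        IntermediateField.subset_adjoin _ _ (by simp)
      have hb : b ∈ IntermediateField.adjoin ℚ {a, b, z} :=
        IntermediateField.subset_adjoin _ _ (by simp)
      have h5 := hasHeight (IntermediateField.adjoin ℚ {a, b, z}) h4
        (algebraMap (IntermediateField.adjoin ℚ {a, b, z}) ℂ)
        ⟨a * b ^ (d - 1), mul_mem ha (pow_mem hb _)⟩
      exact h5
  · exact h2 K hK σ a b (hT _ hab (hasHeight K hK σ _))

/-- the windows, for one `ε` -/
lemma step (d : ℕ) (hd : 2 ≤ d) (D : ℕ) (ε : ℝ) (hε : 0 < ε) :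
    ∃ N : ℕ, ∀ (v : ℕ → ℝ) (τ θ : ℝ), (∀ n, 1 ≤ v n) → 0 ≤ τ → ExpLe v τ → θ < 1 →
      ∃ E : Set ℝ, dimH E ≤ ENNReal.ofReal ((ε + τ) / (1 - θ)) ∧
        ∀ α : ℝ, 0 < α → α ∉ E → ∃ n₀ : ℕ, ∀ n : ℕ, n₀ ≤ n →
          Bounded d D N {t | |(height D t : ℝ) - α * v n| ≤ (v n) ^ θ} := by
  obtain ⟨N, C, E₀, h1, h2, h3⟩ := FewExceptionalUnicritical.result d hd D ε hε
  refine ⟨N, fun v τ θ hv hτ hE hθ => ?_⟩
  obtain ⟨E, hE1, hE2⟩ := Pool.Agent.Y854.GM.windows
    {t : ℂ | t ∈ E₀ ∧ ∃ H : ℕ, HeightLE D (H : ℝ) t} (fun t => (height D t : ℝ)) (θ := θ) (s := ε)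
    hv hτ hE hε.le hθ (fun δ hδ => by
      refine ⟨|C|, fun X hX => ?_⟩
      obtain ⟨h4, h5⟩ := h1 X hX
      have hsub : {t | t ∈ {t : ℂ | t ∈ E₀ ∧ ∃ H : ℕ, HeightLE D (H : ℝ) t} ∧
          (height D t : ℝ) ≤ X} ⊆ {t | t ∈ E₀ ∧ FewExceptionalUnicritical.HeightLE D X t} := by
        rintro t ⟨⟨h6, h7⟩, h8⟩
        obtain ⟨P, p1, p2, p3, p4⟩ := height_spec h7
        exact ⟨h6, P, p1, p2, fun i => (p3 i).trans h8, p4⟩
      refine ⟨h4.subset hsub, ((Nat.cast_le.2 (Set.ncard_le_ncard hsub h4)).trans h5).trans ?_⟩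
      have h9 : X ^ ε ≤ X ^ (ε + δ) := Real.rpow_le_rpow_of_exponent_le hX (by linarith)
      calc C * X ^ ε ≤ |C| * X ^ ε := mul_le_mul_of_nonneg_right (le_abs_self C) (by positivity)
        _ ≤ |C| * X ^ (ε + δ) := mul_le_mul_of_nonneg_left h9 (abs_nonneg C))
  refine ⟨E, hE1, fun α hα hαE => ?_⟩
  obtain ⟨n₀, hn⟩ := hE2 α hα hαE
  refine ⟨n₀, fun n hn1 => bounded_of h2 h3 (fun t ht hH ht0 => ?_)⟩
  exact absurd (hn n hn1 t ⟨ht0, hH⟩) (not_lt.2 ht)

/-- **Uniform boundedness in windows.** Let `d ≥ 2` and `D` be given.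

1. For every `ε > 0` there is `N`, depending only on `d`, `D` and `ε`, such that for every sequence
`v ≥ 1` with exponent of convergence at most `τ ≥ 0` and every `θ < 1` there is a set `E` of Hausdorff
dimension at most `(ε + τ) / (1 - θ)` with the following property: for all `α > 0` outside `E` and all
large `n`, ALL polynomials `a z ^ d + b` for which the height of `a b ^ (d - 1)` differs from `α v_n`
by at most `v_n ^ θ` have at most `N` preperiodic points `z` such that `ℚ(a, b, z)` has degree at most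
`D`, and at most `N` preperiodic points in each number field of degree at most `D` containing `a`, `b`.

2. For all `τ ≥ 0` and `θ < 1 - τ` there is `N`, depending only on `d`, `D`, `τ` and `θ`, such that for
every sequence `v ≥ 1` with exponent of convergence at most `τ` and for almost all `α > 0` this holds
for all large `n`.

3. For every `v`, `τ`, `θ` as in 1 there is a set `E` of Hausdorff dimension at most
`τ / (1 - θ)` such that for all `α > 0` outside `E` this holds with some `N` for all large `n`.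

4. The sequences `v_n = (n + 1) ^ κ` and `v_n = b ^ n` have exponent of convergence at most `1 / κ`
and `0`. -/
theorem result (d : ℕ) (hd : 2 ≤ d) (D : ℕ) :
    (∀ ε : ℝ, 0 < ε → ∃ N : ℕ, ∀ (v : ℕ → ℝ) (τ θ : ℝ), (∀ n, 1 ≤ v n) → 0 ≤ τ → ExpLe v τ →
      θ < 1 → ∃ E : Set ℝ, dimH E ≤ ENNReal.ofReal ((ε + τ) / (1 - θ)) ∧
        ∀ α : ℝ, 0 < α → α ∉ E → ∃ n₀ : ℕ, ∀ n : ℕ, n₀ ≤ n →
          Bounded d D N {t | |(height D t : ℝ) - α * v n| ≤ (v n) ^ θ}) ∧
    (∀ τ θ : ℝ, 0 ≤ τ → θ < 1 - τ → ∃ N : ℕ, ∀ v : ℕ → ℝ, (∀ n, 1 ≤ v n) → ExpLe v τ →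
      ∀ᵐ α : ℝ, 0 < α → ∃ n₀ : ℕ, ∀ n : ℕ, n₀ ≤ n →
        Bounded d D N {t | |(height D t : ℝ) - α * v n| ≤ (v n) ^ θ}) ∧
    (∀ (v : ℕ → ℝ) (τ θ : ℝ), (∀ n, 1 ≤ v n) → 0 ≤ τ → ExpLe v τ → θ < 1 →
      ∃ E : Set ℝ, dimH E ≤ ENNReal.ofReal (τ / (1 - θ)) ∧
        ∀ α : ℝ, 0 < α → α ∉ E → ∃ N n₀ : ℕ, ∀ n : ℕ, n₀ ≤ n →
          Bounded d D N {t | |(height D t : ℝ) - α * v n| ≤ (v n) ^ θ}) ∧
    (∀ κ : ℝ, 0 < κ → ExpLe (fun n : ℕ => ((n : ℝ) + 1) ^ κ) (1 / κ)) ∧
    (∀ b : ℝ, 1 < b → ExpLe (fun n : ℕ => b ^ n) 0) := by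
  refine ⟨fun ε hε => step d hd D ε hε, fun τ θ hτ hθ => ?_, fun v τ θ hv hτ hE hθ => ?_,
    fun κ hκ => Pool.Agent.Y854.GM.expLe_pow κ hκ, fun b hb => Pool.Agent.Y854.GM.expLe_geom b hb⟩
  · obtain ⟨N, hN⟩ := step d hd D ((1 - θ - τ) / 2) (by linarith)
    refine ⟨N, fun v hv hE => ?_⟩
    obtain ⟨E, h1, h2⟩ := hN v τ θ hv hτ hE (by linarith)
    refine Pool.Agent.X39.Win.ae_of h1 ?_ h2
    rw [div_lt_one (by linarith)]
    linarith
  · choose N hN using fun k : ℕ => step d hd D (1 / ((k : ℝ) + 1)) (by positivity)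
    choose E hE1 hE2 using fun k : ℕ => hN k v τ θ hv hτ hE hθ
    refine ⟨⋂ k, E k, ?_, fun α hα hαE => ?_⟩
    · have h1 := Pool.Agent.X39.Win.inter_dim (τ := τ) (θ := θ) (s := 0) E
        (fun k : ℕ => 1 / ((k : ℝ) + 1)) (Pool.Agent.X39.Win.tendsto_inv 1) hE1
      rwa [zero_add] at h1
    · rw [Set.mem_iInter] at hαE
      push Not at hαE
      obtain ⟨k, hk⟩ := hαE
      obtain ⟨n₀, hn⟩ := hE2 k α hα hk
      exact ⟨N k, n₀, hn⟩

end Pool.Agent.Results.MP_90787a_nt.PreperiodicPointsInWindows
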