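import Pool.Agent.Results.MP_90787a_nt.FewExceptionalUnicritical
import Pool.Agent.X174.WinPoly

/-!
# Uniform boundedness for ALL unicritical polynomials whose parameter lies in cubes around thin sequences

The polynomial `a z ^ d + b` is determined up to conjugation by the number `a b ^ (d - 1)`. Let `d ≥ 2`, `D` and `ε > 0`.
There is a number `N` such that for every sequence `v ≥ 1` of exponent of convergence at most `τ` (for `v_i = i ^ a` this is
`1 / a`, for `v_i = b ^ i` it is `0`) and `ρ < 1`, outside a set of `x ∈ ℝ^(D + 1)` of Hausdorff dimension at most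
`(ε + τ) / (1 - ρ)`, for all but finitely many `i` and ALL irreducible integral polynomials `P` of degree at most `D` with
coefficients in the cube with centre `x v_i` and side `2 v_i ^ ρ`: if `a b ^ (d - 1)` is a root of `P`, then `a z ^ d + b`
has at most `N` preperiodic points in the number fields of degree at most `D` which contain `a` and `b`.

The number of exceptions is from the starting result `FewExceptionalUnicritical`.
-/

set_option autoImplicit false

open Polynomial Module

namespace Pool.Agent.Results.MP_90787a_nt.UnicriticalInCubes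

open FewExceptionalUnicritical (HeightLE preperiodic boundedDegree)

/-- the exponent of convergence of the sequence `v` is at most `τ` -/
def ExpLe (v : ℕ → ℝ) (τ : ℝ) : Prop := ∀ t : ℝ, τ < t → Summable (fun n : ℕ => (v n) ^ (-t))

/-- **Theorem.** Let `d ≥ 2`, `D` a natural number and `ε > 0`. There is `N` such that for every sequence `v ≥ 1` of
exponent of convergence at most `τ ≥ 0` and every `ρ < 1` there is a set `F ⊂ ℝ^(D + 1)` of Hausdorff dimension at most
`(ε + τ) / (1 - ρ)` such that for each `x` outside `F`, for all but finitely many `i`: for ALL irreducible `P ∈ ℤ[X]` of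
degree at most `D` whose coefficients differ from `x_j v_i` by at most `v_i ^ ρ`,

* for all complex `a`, `b` such that `a b ^ (d - 1)` is a root of `P` the polynomial `a z ^ d + b` has at most `N`
  preperiodic points `z` such that `ℚ(a, b, z)` has degree at most `D`;
* for every number field `K` of degree at most `D`, every embedding `σ` and all `a`, `b` in `K` such that
  `σ(a b ^ (d - 1))` is a root of `P` the polynomial `a z ^ d + b` has at most `N` preperiodic points in `K`.

The sequences `v_i = (i + 1) ^ a` and `v_i = b ^ i` have exponent of convergence at most `1 / a` and `0`. -/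
theorem result :
    (∀ d : ℕ, 2 ≤ d → ∀ (D : ℕ) (ε : ℝ), 0 < ε → ∃ N : ℕ,
      ∀ (v : ℕ → ℝ) (τ ρ : ℝ), (∀ i, 1 ≤ v i) → 0 ≤ τ → ExpLe v τ → ρ < 1 →
      ∃ F : Set (Fin (D + 1) → ℝ), dimH F ≤ ENNReal.ofReal ((ε + τ) / (1 - ρ)) ∧
        ∀ x : Fin (D + 1) → ℝ, x ∉ F → ∃ i₀ : ℕ, ∀ i : ℕ, i₀ ≤ i →
          ∀ P : ℤ[X], Irreducible P → P.natDegree ≤ D →
            (∀ j : Fin (D + 1), |((P.coeff j : ℤ) : ℝ) - x j * v i| ≤ (v i) ^ ρ) →
            (∀ a b : ℂ, aeval (a * b ^ (d - 1)) P = 0 →
              (preperiodic d a b ∩ boundedDegree D a b).Finite ∧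
              (preperiodic d a b ∩ boundedDegree D a b).ncard ≤ N) ∧
            (∀ (K : Type) [Field K] [NumberField K], finrank ℚ K ≤ D → ∀ (σ : K →+* ℂ) (a b : K),
              aeval (σ (a * b ^ (d - 1))) P = 0 →
              (preperiodic d a b).Finite ∧ (preperiodic d a b).ncard ≤ N)) ∧
    (∀ a : ℝ, 0 < a → ExpLe (fun n : ℕ => ((n : ℝ) + 1) ^ a) (1 / a)) ∧
    (∀ b : ℝ, 1 < b → ExpLe (fun n : ℕ => b ^ n) 0) := by
  refine ⟨fun d hd D ε hε => ?_, fun κ hκ => Pool.Agent.Y854.GM.expLe_pow κ hκ,
    fun b hb => Pool.Agent.Y854.GM.expLe_geom b hb⟩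
  obtain ⟨N, C, E, hE, h1, h2⟩ := FewExceptionalUnicritical.result d hd D ε hε
  refine ⟨N, fun v τ ρ hv hτ hconv hρ => ?_⟩
  obtain ⟨F, hF1, hF2⟩ := Pool.Agent.X174.winPoly D E (s := ε) (C := C) hε.le hE hv hτ hconv hρ
  refine ⟨F, hF1, fun x hx => ?_⟩
  obtain ⟨i₀, hi₀⟩ := hF2 x hx
  refine ⟨i₀, fun i hi P hP hdeg hcube => ⟨fun a b hab => h1 a b (hi₀ i hi P hP hdeg hcube _ hab),
    fun K _ _ hK σ a b hab => h2 K hK σ a b (hi₀ i hi P hP hdeg hcube _ hab)⟩⟩

end Pool.Agent.Results.MP_90787a_nt.UnicriticalInCubes
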